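import Pool.Agent.H11Squares.Bridge

/-!
MP_72cd34_co: the number of inequivalent abelian squares in a word is not O(n^{3/2}).
-/

open H11Squares in
theorem Pool.Agent.Results.MP_72cd34_co.SuperThreeHalves.result :
    (∀ C : ℝ, ∃ w : List Bool, C * (w.length : ℝ) ^ ((3 : ℝ) / 2) < (numAbelianSquares w : ℝ)) ∧
    (∀ d : ℕ, ∃ w : List Bool, w.length = 144 * 18 ^ d ∧ 81 ^ d ≤ numAbelianSquares w) :=
  ⟨superThreeHalves, many⟩
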